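import Pool.Agent.ARB.Fin
import Pool.Agent.ALT.Statement

/-! # ALT, block Md: tangles with local knots (beads) on the four ends -/

set_option autoImplicit false

namespace Pool.Agent.ALT

open Pool.Agent.ARB

theorem ok_bd {J J' : Word} (h : Ok J 1 1) (h' : Ok J' 1 1) : Ok (bd J J') 2 2 :=
  (h.add 1).append (h'.sh 1)

theorem ok_sh1 {J : Word} (h : Ok J 1 1) : Ok (sh 1 J) 2 2 := h.sh 1

theorem ok_J2 {J : Word} (h : Ok J 1 1) : Ok J 2 2 := h.add 1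

theorem ok_flp {J : Word} (h : Ok J 1 1) : Ok (flp J) 1 1 :=
  ⟨by decide, ((h.sh 1).add 1).append ⟨by decide, rfl⟩⟩

/-- beads on the two strands commute -/
theorem bd_comm {J J' : Word} (h : Ok J 1 1) (h' : Ok J' 1 1) :
    Iso 2 (J ++ sh 1 J') (sh 1 J' ++ J) := thm_Comm J J' 1 1 1 1 h h'

/-- two rows of beads -/
theorem bd_bd {J0 J1 K0 K1 : Word} (h0 : Ok J0 1 1) (h1 : Ok J1 1 1) (k0 : Ok K0 1 1)
    (k1 : Ok K1 1 1) : Iso 2 (bd J0 J1 ++ bd K0 K1) (bd (J0 ++ K0) (J1 ++ K1)) := by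
  have e1 : bd J0 J1 ++ bd K0 K1 = J0 ++ ((sh 1 J1 ++ K0) ++ sh 1 K1) := by
    simp only [bd, List.append_assoc]
  have e2 : bd (J0 ++ K0) (J1 ++ K1) = J0 ++ ((K0 ++ sh 1 J1) ++ sh 1 K1) := by
    simp only [bd, List.append_assoc, sh_append]
  rw [e1, e2]
  exact Iso.mid J0 (sh 1 K1) (ok_J2 h0) (bd_comm k0 h1).symm

/-- a pair of beads slides through a crossing -/
theorem bd_X {J J' : Word} (p : Bool) (h : Ok J 1 1) (h' : Ok J' 1 1) :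
    Iso 2 (bd J J' ++ [pX 0 p]) ([pX 0 p] ++ bd J' J) := by
  have h1 := all_BX J' p h'
  have h2 := all_BX J p h
  have hX : Ok [pX 0 p] 2 2 := ⟨by show 0 + 2 ≤ 2; omega, rfl⟩
  have e1 : bd J J' ++ [pX 0 p] = J ++ (sh 1 J' ++ [pX 0 p]) := by
    simp only [bd, List.append_assoc]
  have i1 : Iso 2 (J ++ (sh 1 J' ++ [pX 0 p])) (J ++ ([pX 0 p] ++ J')) :=
    Iso.left (ok_J2 h) h1.1
  have i2 : Iso 2 ((J ++ [pX 0 p]) ++ J') (([pX 0 p] ++ sh 1 J) ++ J') := h2.2.right J'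
  have i3 : Iso 2 ([pX 0 p] ++ (sh 1 J ++ J')) ([pX 0 p] ++ (J' ++ sh 1 J)) :=
    Iso.left hX (bd_comm h' h).symm
  rw [e1]
  refine i1.trans ?_
  rw [← List.append_assoc]
  refine i2.trans ?_
  rw [List.append_assoc]
  exact i3

/-- pairs of beads slide through the word `v` -/
def Sl (v : Word) : Prop :=
  (∀ J J' : Word, Ok J 1 1 → Ok J' 1 1 → Iso 2 (bd J J' ++ v) (v ++ bd J J')) ∨
    ∀ J J' : Word, Ok J 1 1 → Ok J' 1 1 → Iso 2 (bd J J' ++ v) (v ++ bd J' J)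

theorem sl_nil : Sl [] := Or.inl fun J J' _ _ => by
  rw [List.append_nil, List.nil_append]
  exact Iso.refl _ _

theorem sl_snoc {v : Word} (hv : Ok v 2 2) (h : Sl v) (p : Bool) : Sl (v ++ [pX 0 p]) := by
  rcases h with h | h
  · right
    intro J J' hJ hJ'
    have i1 := (h J J' hJ hJ').right [pX 0 p]
    have i2 : Iso 2 (v ++ (bd J J' ++ [pX 0 p])) (v ++ ([pX 0 p] ++ bd J' J)) :=
      Iso.left hv (bd_X p hJ hJ')
    rw [← List.append_assoc]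
    refine i1.trans ?_
    rw [List.append_assoc]
    refine i2.trans ?_
    rw [← List.append_assoc]
    exact Iso.refl _ _
  · left
    intro J J' hJ hJ'
    have i1 := (h J J' hJ hJ').right [pX 0 p]
    have i2 : Iso 2 (v ++ (bd J' J ++ [pX 0 p])) (v ++ ([pX 0 p] ++ bd J J')) :=
      Iso.left hv (bd_X p hJ' hJ)
    rw [← List.append_assoc]
    refine i1.trans ?_
    rw [List.append_assoc]
    refine i2.trans ?_
    rw [← List.append_assoc]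
    exact Iso.refl _ _

theorem sl_addX (p : Bool) (n : ℕ) : Sl (addX p n .zero).word := by
  induction n with
  | zero => exact sl_nil
  | succ n ih => exact sl_snoc (ARB.okA (addX p n .zero)) ih p

/-- `w` is `v` with beads on the four ends -/
def Bd (w v : Word) : Prop := ∃ J0 J1 J2 J3 : Word, Ok J0 1 1 ∧ Ok J1 1 1 ∧ Ok J2 1 1 ∧
  Ok J3 1 1 ∧ Iso 2 w (bd J0 J1 ++ (v ++ bd J2 J3))

theorem ok_nil : Ok [] 1 1 := rfl

theorem Bd.of_iso {w v : Word} (h : Iso 2 w v) : Bd w v := by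
  refine ⟨[], [], [], [], rfl, rfl, rfl, rfl, ?_⟩
  show Iso 2 w (v ++ [])
  rw [List.append_nil]
  exact h

theorem Bd.iso_left {w w' v : Word} (h : Iso 2 w w') (h' : Bd w' v) : Bd w v := by
  obtain ⟨J0, J1, J2, J3, h0, h1, h2, h3, i⟩ := h'
  exact ⟨J0, J1, J2, J3, h0, h1, h2, h3, h.trans i⟩

theorem Bd.iso_right {w v v' : Word} (h : Bd w v) (h' : Iso 2 v v') : Bd w v' := by
  obtain ⟨J0, J1, J2, J3, h0, h1, h2, h3, i⟩ := h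
  exact ⟨J0, J1, J2, J3, h0, h1, h2, h3,
    i.trans (Iso.mid (bd J0 J1) (bd J2 J3) (ok_bd h0 h1) h')⟩

/-- sum, beads slide through the second summand -/
theorem Bd.sumR {w v w' v' : Word} (hw : Ok w 2 2) (hv : Ok v 2 2) (hv' : Ok v' 2 2)
    (h : Bd w v) (h' : Bd w' v') (hs : Sl v') : Bd (w ++ w') (v ++ v') := by
  obtain ⟨J0, J1, J2, J3, h0, h1, h2, h3, i⟩ := h
  obtain ⟨K0, K1, K2, K3, k0, k1, k2, k3, i'⟩ := h'
  have hJ := ok_bd h0 h1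
  have i1 : Iso 2 (w ++ w') ((bd J0 J1 ++ (v ++ bd J2 J3)) ++ (bd K0 K1 ++ (v' ++ bd K2 K3))) :=
    (Iso.left hw i').trans (i.right _)
  have e1 : (bd J0 J1 ++ (v ++ bd J2 J3)) ++ (bd K0 K1 ++ (v' ++ bd K2 K3)) =
      (bd J0 J1 ++ v) ++ ((bd J2 J3 ++ bd K0 K1) ++ (v' ++ bd K2 K3)) := by
    simp only [List.append_assoc]
  have hJv : Ok (bd J0 J1 ++ v) 2 2 := hJ.append hv
  have i2 : Iso 2 ((bd J0 J1 ++ v) ++ ((bd J2 J3 ++ bd K0 K1) ++ (v' ++ bd K2 K3)))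
      ((bd J0 J1 ++ v) ++ (bd (J2 ++ K0) (J3 ++ K1) ++ (v' ++ bd K2 K3))) :=
    Iso.mid _ _ hJv (bd_bd h2 h3 k0 k1)
  have m0 : Ok (J2 ++ K0) 1 1 := h2.append k0
  have m1 : Ok (J3 ++ K1) 1 1 := h3.append k1
  rw [e1] at i1
  have i12 := i1.trans i2
  have key : ∀ M0 M1 : Word, Ok M0 1 1 → Ok M1 1 1 →
      Iso 2 (bd (J2 ++ K0) (J3 ++ K1) ++ v') (v' ++ bd M0 M1) → Bd (w ++ w') (v ++ v') := by
    intro M0 M1 n0 n1 j
    have i3 : Iso 2 ((bd J0 J1 ++ v) ++ ((bd (J2 ++ K0) (J3 ++ K1) ++ v') ++ bd K2 K3))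
        ((bd J0 J1 ++ v) ++ ((v' ++ bd M0 M1) ++ bd K2 K3)) := Iso.mid _ _ hJv j
    have i4 : Iso 2 ((bd J0 J1 ++ (v ++ v')) ++ (bd M0 M1 ++ bd K2 K3))
        ((bd J0 J1 ++ (v ++ v')) ++ bd (M0 ++ K2) (M1 ++ K3)) :=
      Iso.left (hJ.append (hv.append hv')) (bd_bd n0 n1 k2 k3)
    refine ⟨J0, J1, M0 ++ K2, M1 ++ K3, h0, h1, n0.append k2, n1.append k3, ?_⟩
    have e2 : (bd J0 J1 ++ v) ++ (bd (J2 ++ K0) (J3 ++ K1) ++ (v' ++ bd K2 K3)) =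
        (bd J0 J1 ++ v) ++ ((bd (J2 ++ K0) (J3 ++ K1) ++ v') ++ bd K2 K3) := by
      simp only [List.append_assoc]
    have e3 : (bd J0 J1 ++ v) ++ ((v' ++ bd M0 M1) ++ bd K2 K3) =
        (bd J0 J1 ++ (v ++ v')) ++ (bd M0 M1 ++ bd K2 K3) := by
      simp only [List.append_assoc]
    have e4 : bd J0 J1 ++ ((v ++ v') ++ bd (M0 ++ K2) (M1 ++ K3)) =
        (bd J0 J1 ++ (v ++ v')) ++ bd (M0 ++ K2) (M1 ++ K3) := by
      simp only [List.append_assoc]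
    rw [e2] at i12
    rw [e3] at i3
    rw [e4]
    exact i12.trans (i3.trans i4)
  rcases hs with hs | hs
  · exact key _ _ m0 m1 (hs _ _ m0 m1)
  · exact key _ _ m1 m0 (hs _ _ m0 m1)

/-- sum, beads slide through the first summand -/
theorem Bd.sumL {w v w' v' : Word} (hw : Ok w 2 2) (hv : Ok v 2 2) (hv' : Ok v' 2 2)
    (h : Bd w v) (h' : Bd w' v') (hs : Sl v) : Bd (w ++ w') (v ++ v') := by
  obtain ⟨J0, J1, J2, J3, h0, h1, h2, h3, i⟩ := h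
  obtain ⟨K0, K1, K2, K3, k0, k1, k2, k3, i'⟩ := h'
  have hJ := ok_bd h0 h1
  have hK := ok_bd k2 k3
  have i1 : Iso 2 (w ++ w') ((bd J0 J1 ++ (v ++ bd J2 J3)) ++ (bd K0 K1 ++ (v' ++ bd K2 K3))) :=
    (Iso.left hw i').trans (i.right _)
  have e1 : (bd J0 J1 ++ (v ++ bd J2 J3)) ++ (bd K0 K1 ++ (v' ++ bd K2 K3)) =
      (bd J0 J1 ++ v) ++ ((bd J2 J3 ++ bd K0 K1) ++ (v' ++ bd K2 K3)) := by
    simp only [List.append_assoc]
  have hJv : Ok (bd J0 J1 ++ v) 2 2 := hJ.append hv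
  have i2 : Iso 2 ((bd J0 J1 ++ v) ++ ((bd J2 J3 ++ bd K0 K1) ++ (v' ++ bd K2 K3)))
      ((bd J0 J1 ++ v) ++ (bd (J2 ++ K0) (J3 ++ K1) ++ (v' ++ bd K2 K3))) :=
    Iso.mid _ _ hJv (bd_bd h2 h3 k0 k1)
  have m0 : Ok (J2 ++ K0) 1 1 := h2.append k0
  have m1 : Ok (J3 ++ K1) 1 1 := h3.append k1
  rw [e1] at i1
  have i12 := i1.trans i2
  have key : ∀ M0 M1 : Word, Ok M0 1 1 → Ok M1 1 1 →
      Iso 2 (v ++ bd (J2 ++ K0) (J3 ++ K1)) (bd M0 M1 ++ v) → Bd (w ++ w') (v ++ v') := by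
    intro M0 M1 n0 n1 j
    have i3 : Iso 2 (bd J0 J1 ++ ((v ++ bd (J2 ++ K0) (J3 ++ K1)) ++ (v' ++ bd K2 K3)))
        (bd J0 J1 ++ ((bd M0 M1 ++ v) ++ (v' ++ bd K2 K3))) := Iso.mid _ _ hJ j
    have i4 : Iso 2 ((bd J0 J1 ++ bd M0 M1) ++ ((v ++ v') ++ bd K2 K3))
        (bd (J0 ++ M0) (J1 ++ M1) ++ ((v ++ v') ++ bd K2 K3)) :=
      (bd_bd h0 h1 n0 n1).right _
    refine ⟨J0 ++ M0, J1 ++ M1, K2, K3, h0.append n0, h1.append n1, k2, k3, ?_⟩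
    have e2 : (bd J0 J1 ++ v) ++ (bd (J2 ++ K0) (J3 ++ K1) ++ (v' ++ bd K2 K3)) =
        bd J0 J1 ++ ((v ++ bd (J2 ++ K0) (J3 ++ K1)) ++ (v' ++ bd K2 K3)) := by
      simp only [List.append_assoc]
    have e3 : bd J0 J1 ++ ((bd M0 M1 ++ v) ++ (v' ++ bd K2 K3)) =
        (bd J0 J1 ++ bd M0 M1) ++ ((v ++ v') ++ bd K2 K3) := by
      simp only [List.append_assoc]
    rw [e2] at i12
    rw [e3] at i3
    exact i12.trans (i3.trans i4)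
  rcases hs with hs | hs
  · exact key _ _ m0 m1 (hs _ _ m0 m1).symm
  · exact key _ _ m1 m0 (hs _ _ m1 m0).symm

/-! ### rotation -/

theorem rot_sw {J w : Word} (hJ : Ok J 1 1) : Iso 2 (rotW (J ++ w)) (sh 1 J ++ rotW w) := by
  have e1 : rotW (J ++ w) = ([pU 2] ++ sh 1 J) ++ (sh 1 w ++ [pN 0]) := by
    simp [rotW, sh_append]
  have e2 : sh 1 J ++ rotW w = (sh 1 J ++ [pU 2]) ++ (sh 1 w ++ [pN 0]) := by
    simp [rotW]
  have i1 : Iso (2 + 0) (sh 1 J ++ sh 2 [pU 0]) (sh 2 [pU 0] ++ sh 1 J) :=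
    thm_Comm (sh 1 J) [pU 0] 2 2 0 2 (hJ.sh 1) ⟨by decide, rfl⟩
  rw [e1, e2]
  exact (i1.symm).right _

theorem rot_se {J w : Word} (hJ : Ok J 1 1) (hw : Ok w 2 2) :
    Iso 2 (rotW (sh 1 J ++ w)) (rotW w ++ sh 1 (flp J)) := by
  have e1 : rotW (sh 1 J ++ w) = (pU 2 :: sh 2 J) ++ (sh 1 w ++ [pN 0]) := by
    simp [rotW, sh_append, sh_sh]
  have i1 : Iso 2 (pU 2 :: sh 2 J) (pU 2 :: sh 3 (flp J)) := by
    have h := ((all_BU J hJ).1).sh 2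
    have e3 : sh 2 (pU 0 :: J) = pU 2 :: sh 2 J := by simp [sh_cons]
    have e4 : sh 2 (pU 0 :: sh 1 (flp J)) = pU 2 :: sh 3 (flp J) := by simp [sh_cons, sh_sh]
    rw [e3, e4] at h
    exact h
  have i2 : Iso (3 + 1) ((sh 1 w ++ [pN 0]) ++ sh 1 (flp J)) (sh 3 (flp J) ++ (sh 1 w ++ [pN 0])) :=
    thm_Comm (sh 1 w ++ [pN 0]) (flp J) 3 1 1 1 ((hw.sh 1).append ⟨by decide, rfl⟩) (ok_flp hJ)
  have i3 : Iso 2 ([pU 2] ++ (sh 3 (flp J) ++ (sh 1 w ++ [pN 0])))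
      ([pU 2] ++ ((sh 1 w ++ [pN 0]) ++ sh 1 (flp J))) :=
    Iso.left (k := 4) ⟨by decide, rfl⟩ i2.symm
  have e2 : rotW w ++ sh 1 (flp J) = [pU 2] ++ ((sh 1 w ++ [pN 0]) ++ sh 1 (flp J)) := by
    simp [rotW]
  rw [e1, e2]
  exact (i1.right _).trans i3

theorem rot_nw {J w : Word} (hJ : Ok J 1 1) (hw : Ok w 2 2) :
    Iso 2 (rotW (w ++ J)) (flp J ++ rotW w) := by
  have hf := ok_flp hJ
  have hU : Ok (pU 2 :: sh 1 w) 2 4 := ⟨by decide, (hw.sh 1).add 1⟩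
  have e1 : rotW (w ++ J) = (pU 2 :: sh 1 w) ++ (sh 1 J ++ [pN 0]) := by
    simp [rotW, sh_append]
  have i1 : Iso 4 (sh 1 J ++ [pN 0]) (flp J ++ [pN 0]) := ((all_BU J hJ).2.2.2).add 2
  have i2 : Iso 2 ((pU 2 :: sh 1 w) ++ (sh 1 J ++ [pN 0]))
      ((pU 2 :: sh 1 w) ++ (flp J ++ [pN 0])) := Iso.left hU i1
  have i3 : Iso (1 + 1) (flp J ++ sh 1 (pU 1 :: w)) (sh 1 (pU 1 :: w) ++ flp J) :=
    thm_Comm (flp J) (pU 1 :: w) 1 1 1 3 hf ⟨by decide, hw.add 1⟩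
  have e3 : sh 1 (pU 1 :: w) = pU 2 :: sh 1 w := by simp [sh_cons]
  rw [e3] at i3
  have i4 : Iso 2 (((pU 2 :: sh 1 w) ++ flp J) ++ [pN 0]) ((flp J ++ (pU 2 :: sh 1 w)) ++ [pN 0]) :=
    i3.symm.right _
  have e2 : flp J ++ rotW w = (flp J ++ (pU 2 :: sh 1 w)) ++ [pN 0] := by simp [rotW]
  rw [e1, e2]
  refine i2.trans ?_
  rw [← List.append_assoc]
  exact i4

theorem rot_ne {J w : Word} (hJ : Ok J 1 1) (hw : Ok w 2 2) :
    Iso 2 (rotW (w ++ sh 1 J)) (rotW w ++ J) := by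
  have hU : Ok (pU 2 :: sh 1 w) 2 4 := ⟨by decide, (hw.sh 1).add 1⟩
  have e1 : rotW (w ++ sh 1 J) = (pU 2 :: sh 1 w) ++ (sh 2 J ++ [pN 0]) := by
    simp [rotW, sh_append, sh_sh]
  have i1 : Iso (2 + 1) ([pN 0] ++ sh 0 J) (sh 2 J ++ [pN 0]) :=
    thm_Comm [pN 0] J 2 0 1 1 ⟨by decide, rfl⟩ hJ
  rw [sh_zero] at i1
  have e2 : rotW w ++ J = (pU 2 :: sh 1 w) ++ ([pN 0] ++ J) := by simp [rotW]
  rw [e1, e2]
  exact Iso.left hU (i1.symm.add 1)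

/-- rotation of a tangle with beads -/
theorem Bd.rot {w v : Word} (hv : Ok v 2 2) (h : Bd w v) : Bd (rotW w) (rotW v) := by
  obtain ⟨J0, J1, J2, J3, h0, h1, h2, h3, i⟩ := h
  have hvJ : Ok (v ++ J2) 2 2 := hv.append (ok_J2 h2)
  have hvJJ : Ok ((v ++ J2) ++ sh 1 J3) 2 2 := hvJ.append (ok_sh1 h3)
  have e1 : bd J0 J1 ++ (v ++ bd J2 J3) = J0 ++ (sh 1 J1 ++ ((v ++ J2) ++ sh 1 J3)) := by
    simp only [bd, List.append_assoc]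
  have i0 := congR _ _ i
  rw [e1] at i0
  have i1 := rot_sw (J := J0) (w := sh 1 J1 ++ ((v ++ J2) ++ sh 1 J3)) h0
  have i2 : Iso 2 (sh 1 J0 ++ rotW (sh 1 J1 ++ ((v ++ J2) ++ sh 1 J3)))
      (sh 1 J0 ++ (rotW ((v ++ J2) ++ sh 1 J3) ++ sh 1 (flp J1))) :=
    Iso.left (ok_sh1 h0) (rot_se h1 hvJJ)
  have i3 : Iso 2 (sh 1 J0 ++ (rotW ((v ++ J2) ++ sh 1 J3) ++ sh 1 (flp J1)))
      (sh 1 J0 ++ ((rotW (v ++ J2) ++ J3) ++ sh 1 (flp J1))) :=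
    Iso.mid _ _ (ok_sh1 h0) (rot_ne h3 hvJ)
  have i4 : Iso 2 (sh 1 J0 ++ (rotW (v ++ J2) ++ (J3 ++ sh 1 (flp J1))))
      (sh 1 J0 ++ ((flp J2 ++ rotW v) ++ (J3 ++ sh 1 (flp J1)))) :=
    Iso.mid _ _ (ok_sh1 h0) (rot_nw h2 hv)
  have i5 : Iso 2 ((sh 1 J0 ++ flp J2) ++ (rotW v ++ bd J3 (flp J1)))
      ((flp J2 ++ sh 1 J0) ++ (rotW v ++ bd J3 (flp J1))) :=
    (bd_comm (ok_flp h2) h0).symm.right _
  refine ⟨flp J2, J0, J3, flp J1, ok_flp h2, h0, h3, ok_flp h1, ?_⟩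
  have e3 : sh 1 J0 ++ ((rotW (v ++ J2) ++ J3) ++ sh 1 (flp J1)) =
      sh 1 J0 ++ (rotW (v ++ J2) ++ (J3 ++ sh 1 (flp J1))) := by
    simp only [List.append_assoc]
  have e4 : sh 1 J0 ++ ((flp J2 ++ rotW v) ++ (J3 ++ sh 1 (flp J1))) =
      (sh 1 J0 ++ flp J2) ++ (rotW v ++ bd J3 (flp J1)) := by
    simp only [bd, List.append_assoc]
  rw [e3] at i3
  rw [e4] at i4
  exact i0.trans (i1.trans (i2.trans (i3.trans (i4.trans i5))))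

/-! ### slope infinity -/

/-- a cup followed by a tangle is a cup with a local knot -/
theorem cup_bead {Z : Word} (h : Ok Z 2 2) :
    Iso 0 (pU 0 :: Z) (pU 0 :: sh 1 (pU 1 :: (sh 1 Z ++ [pN 0]))) := by
  have e0 : pU 0 :: sh 1 (pU 1 :: (sh 1 Z ++ [pN 0])) =
      ([pU 0] ++ sh 2 (pU 0 :: Z)) ++ [pN 1] := by
    simp [sh_cons, sh_append, sh_sh, sh_nil]
  have h1 : Iso 0 ([pU 0] ++ sh 2 (pU 0 :: Z)) (sh 0 (pU 0 :: Z) ++ [pU 0]) :=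
    thm_Comm [pU 0] (pU 0 :: Z) 0 2 0 2 ⟨by decide, rfl⟩ ⟨by decide, h⟩
  rw [sh_zero] at h1
  have h2 := h1.right [pN 1]
  have e1 : ((pU 0 :: Z) ++ [pU 0]) ++ [pN 1] = (pU 0 :: Z) ++ ([pU 0, pN 1] ++ []) := by
    simp
  have h3 : Iso 0 ((pU 0 :: Z) ++ ([pU 0, pN 1] ++ [])) ((pU 0 :: Z) ++ ([] ++ [])) :=
    Iso.mid (k := 2) (pU 0 :: Z) [] ⟨by decide, h⟩ (Iso.zig (by decide))
  rw [e0]
  rw [e1] at h2
  have h4 := h2.trans h3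
  rw [List.append_nil, List.append_nil] at h4
  exact h4.symm

/-- a tangle followed by a cap is a cap with a local knot -/
theorem bead_cap {Z : Word} (h : Ok Z 2 2) :
    Iso 2 (Z ++ [pN 0]) ((pU 1 :: (Z ++ [pN 0])) ++ [pN 0]) := by
  have e0 : (pU 1 :: (Z ++ [pN 0])) ++ [pN 0] = [pU 1] ++ (Z ++ ([pN 0, pN 0] ++ [])) := by simp
  have h1 : Iso 4 (Z ++ ([pN 0, pN 0] ++ [])) (Z ++ ([pN 2, pN 0] ++ [])) :=
    Iso.mid Z [] (h.add 2) (Iso.swap .N .N 0 2 (by decide) (by decide))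
  have h2 : Iso 4 (Z ++ [pN 2]) ([pN 2] ++ Z) :=
    thm_Comm Z [pN 0] 2 2 2 0 h ⟨by decide, rfl⟩
  have h3 : Iso 4 ((Z ++ [pN 2]) ++ [pN 0]) (([pN 2] ++ Z) ++ [pN 0]) := h2.right _
  have e1 : Z ++ ([pN 2, pN 0] ++ []) = (Z ++ [pN 2]) ++ [pN 0] := by simp
  have h4 : Iso 4 (Z ++ ([pN 0, pN 0] ++ [])) (([pN 2] ++ Z) ++ [pN 0]) := by
    rw [e1] at h1
    exact h1.trans h3
  have h5 : Iso 2 ([pU 1] ++ (Z ++ ([pN 0, pN 0] ++ []))) ([pU 1] ++ (([pN 2] ++ Z) ++ [pN 0])) :=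
    Iso.left (k := 4) ⟨by decide, rfl⟩ h4
  have h6 : Iso 2 ([pU 1, pN 2] ++ (Z ++ [pN 0])) ([] ++ (Z ++ [pN 0])) :=
    (Iso.zig (by decide)).right _
  have e2 : [pU 1] ++ (([pN 2] ++ Z) ++ [pN 0]) = [pU 1, pN 2] ++ (Z ++ [pN 0]) := by simp
  rw [e0]
  rw [e2] at h5
  exact (h5.trans h6).symm

theorem inf_iso : Iso 2 (rotW []) [pN 0, pU 0] := by
  have h := Iso.swap (n := 2) .N .U 0 2 (by decide) (by decide)
  exact h.symm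

/-- a summand of slope infinity, on the left -/
theorem Bd.infL {w w' : Word} (hw' : Ok w' 2 2) (h : Bd w (rotW [])) :
    Bd (w ++ w') (rotW []) := by
  obtain ⟨J0, J1, J2, J3, h0, h1, h2, h3, i⟩ := h.iso_right inf_iso
  have hZ : Ok (bd J2 J3 ++ w') 2 2 := (ok_bd h2 h3).append hw'
  have hK : Ok (pU 1 :: (sh 1 (bd J2 J3 ++ w') ++ [pN 0])) 1 1 :=
    ⟨by decide, (hZ.sh 1).append ⟨by decide, rfl⟩⟩
  have i1 := i.right w'
  have e1 : (bd J0 J1 ++ ([pN 0, pU 0] ++ bd J2 J3)) ++ w' =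
      (bd J0 J1 ++ [pN 0]) ++ (pU 0 :: (bd J2 J3 ++ w')) := by
    simp only [List.append_assoc, List.cons_append, List.nil_append]
  have hJN : Ok (bd J0 J1 ++ [pN 0]) 2 0 := (ok_bd h0 h1).append ⟨by decide, rfl⟩
  have i2 := Iso.left hJN (cup_bead hZ)
  have h4 : Bd (w ++ w') [pN 0, pU 0] := by
    refine ⟨J0, J1, [], _, h0, h1, rfl, hK, ?_⟩
    rw [e1] at i1
    have i3 := i1.trans i2
    have e2 : bd J0 J1 ++ ([pN 0, pU 0] ++ bd [] (pU 1 :: (sh 1 (bd J2 J3 ++ w') ++ [pN 0]))) =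
        (bd J0 J1 ++ [pN 0]) ++ (pU 0 :: sh 1 (pU 1 :: (sh 1 (bd J2 J3 ++ w') ++ [pN 0]))) := by
      simp only [bd, List.append_assoc, List.cons_append, List.nil_append]
    rw [e2]
    exact i3
  exact h4.iso_right inf_iso.symm

/-- a summand of slope infinity, on the right -/
theorem Bd.infR {w w' : Word} (hw : Ok w 2 2) (h : Bd w' (rotW [])) :
    Bd (w ++ w') (rotW []) := by
  obtain ⟨J0, J1, J2, J3, h0, h1, h2, h3, i⟩ := h.iso_right inf_iso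
  have hZ : Ok (w ++ bd J0 J1) 2 2 := hw.append (ok_bd h0 h1)
  have hK : Ok (pU 1 :: ((w ++ bd J0 J1) ++ [pN 0])) 1 1 :=
    ⟨by decide, (hZ.add 1).append ⟨by decide, rfl⟩⟩
  have i1 := Iso.left hw i
  have e1 : w ++ (bd J0 J1 ++ ([pN 0, pU 0] ++ bd J2 J3)) =
      ((w ++ bd J0 J1) ++ [pN 0]) ++ ([pU 0] ++ bd J2 J3) := by
    simp only [List.append_assoc, List.cons_append, List.nil_append]
  have i2 := (bead_cap hZ).right ([pU 0] ++ bd J2 J3)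
  have h4 : Bd (w ++ w') [pN 0, pU 0] := by
    refine ⟨_, [], J2, J3, hK, rfl, h2, h3, ?_⟩
    rw [e1] at i1
    have i3 := i1.trans i2
    have e2 : bd (pU 1 :: ((w ++ bd J0 J1) ++ [pN 0])) [] ++ ([pN 0, pU 0] ++ bd J2 J3) =
        ((pU 1 :: ((w ++ bd J0 J1) ++ [pN 0])) ++ [pN 0]) ++ ([pU 0] ++ bd J2 J3) := by
      simp only [bd, sh_nil, List.append_nil, List.append_assoc, List.cons_append,
        List.nil_append]
    rw [e2]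
    exact i3
  exact h4.iso_right inf_iso.symm

end Pool.Agent.ALT
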