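import Pool.Agent.ALT.Ind.PJ

/-!
# ALT, block Md: bracket pairs modulo the cube of `A ^ 4 + 1`
-/

set_option autoImplicit false

namespace Pool.Agent.ALT

open Pool.Agent.ARB LaurentPolynomial PowerSeries

/-- If the bracket of the numerator closure is a unit modulo `(A ^ 4 + 1) ^ 3` then `p = ± 1` and
`E = 0`. -/
theorem PJ.dvd {x : LaurentPolynomial ℤ × LaurentPolynomial ℤ} {J : Jet} (hx : PJ x J)
    (u : LaurentPolynomial ℤ) (hu : IsU u)
    (h : (T 4 + 1 : LaurentPolynomial ℤ) ^ 3 ∣ x.1 + Pool.Agent.Helper2.loopVal * x.2 - u) :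
    (J.p = 1 ∨ J.p = -1) ∧ J.E = 0 := by
  obtain ⟨P⟩ := exEvPt
  obtain ⟨r, hr⟩ := h
  obtain ⟨g, hg⟩ := P.ev_fac
  have e0 : P.ev (x.1 + Pool.Agent.Helper2.loopVal * x.2) =
      P.ev u + PowerSeries.X ^ 3 * (g ^ 3 * P.ev r) := by
    have : x.1 + Pool.Agent.Helper2.loopVal * x.2 = u + (T 4 + 1) ^ 3 * r := by
      rw [← hr]; ring
    rw [this, map_add, map_mul, map_pow, hg]
    ring
  have hc : ∀ i : ℕ, i < 3 → coeff i (P.ev (x.1 + Pool.Agent.Helper2.loopVal * x.2)) =
      coeff i (P.ev u) := by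
    intro i hi
    rw [e0, map_add, PowerSeries.coeff_X_pow_mul', if_neg (by omega), add_zero]
  have key : ∀ (e : ℤ) (n : ℤ), (e = 1 ∨ e = -1) → u = LaurentPolynomial.C e * T n →
      (J.p = 1 ∨ J.p = -1) ∧ J.E = 0 := by
    intro e n he hue
    rw [hue] at hc
    have c0 := hc 0 (by norm_num)
    have c1 := hc 1 (by norm_num)
    have c2 := hc 2 (by norm_num)
    obtain ⟨k, g0, g1, g2, b0, b1, b2, hk, hg0, hg1, hg2, hb0, hb1, hb2, hp, hq, hw, hG, hF,
      hH⟩ := hx P
    obtain ⟨h8, hh⟩ := zpow_jet P n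
    have hI := Complex.I_sq
    have hk0 : k ≠ 0 := by
      rintro rfl
      norm_num at hk
    have hC : P.ev (LaurentPolynomial.C e) = ((e : ℤ) : PowerSeries ℂ) := by
      simp [EvPt.ev]
    rw [map_add, map_mul, map_mul, P.ev_T, hC] at c0 c1 c2
    set m := ((P.a ^ n : (PowerSeries ℂ)ˣ) : PowerSeries ℂ) with hm
    have hee : ((e : ℤ) : ℂ) ^ 2 = 1 := by
      rcases he with h | h <;> rw [h] <;> norm_num
    have hce : ∀ i : ℕ, coeff i (((e : ℤ) : PowerSeries ℂ) * m) = (e : ℂ) * coeff i m := by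
      intro i
      have : ((e : ℤ) : PowerSeries ℂ) = PowerSeries.C (e : ℂ) := by simp
      rw [this, PowerSeries.coeff_C_mul]
    rw [map_add, bc0, P.l0, hg0, hb0, hce] at c0
    rw [map_add, bc1, P.l0, P.l1, hg1, hb0, hb1, hce] at c1
    rw [map_add, bc2, P.l0, P.l1, P.l2, hg2, hb0, hb1, hb2, hce] at c2
    constructor
    · have h1 : g0 ^ 8 = 1 := by
        have : (-Complex.I * k * g0 + 0 * (k * b0)) ^ 8 = (((e : ℤ) : ℂ) * coeff 0 m) ^ 8 := by
          rw [c0]
        have e8 : ((e : ℤ) : ℂ) ^ 8 = 1 := by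
          have : ((e : ℤ) : ℂ) ^ 8 = (((e : ℤ) : ℂ) ^ 2) ^ 4 := by ring
          rw [this, hee]; norm_num
        have i8 : Complex.I ^ 8 = 1 := by
          have : Complex.I ^ 8 = (Complex.I ^ 2) ^ 4 := by ring
          rw [this, hI]; norm_num
        have t1 : (-Complex.I * k * g0 + 0 * (k * b0)) ^ 8 = Complex.I ^ 8 * k ^ 8 * g0 ^ 8 := by
          ring
        rw [t1, i8, hk, mul_pow, e8, h8] at this
        simpa using this
      rw [← hp] at h1
      have h2 : J.p ^ 8 = 1 := by exact_mod_cast h1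
      have h3 : J.p ^ 2 = 1 := by
        have : (J.p ^ 2) ^ 4 = 1 := by rw [← pow_mul]; exact h2
        exact (pow_eq_one_iff_of_nonneg (sq_nonneg _) (by norm_num)).1 this
      have h4 : (J.p - 1) * (J.p + 1) = 0 := by linear_combination h3
      rcases mul_eq_zero.1 h4 with h | h
      · left; linear_combination h
      · right; linear_combination h
    · have key : k ^ 2 * (2 * (g1 * b0 - g0 * b1) - b0 ^ 2 + (2 * g0 * g2 - g1 ^ 2)) = 0 := by
        linear_combination (-2 * ((-Complex.I * k * g2 + Complex.I * k * b1))) * c0 +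
          ((-Complex.I * k * g1 + Complex.I * k * b0) + e * coeff 1 m) * c1 -
          2 * e * coeff 0 m * c2 - (e : ℂ) ^ 2 * hh +
          k ^ 2 * (2 * (g1 * b0 - g0 * b1) - b0 ^ 2 + (2 * g0 * g2 - g1 ^ 2)) * hI
      have : ((J.E : ℚ) : ℂ) = 0 := by
        rw [Jet.E]
        push_cast
        rw [hw, hq, hG]
        have hk2 : k ^ 2 ≠ 0 := pow_ne_zero 2 hk0
        rcases mul_eq_zero.1 key with h | h
        · exact absurd h hk2
        · linear_combination h
      exact_mod_cast this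
  obtain ⟨n, h | h⟩ := hu
  · exact key 1 n (Or.inl rfl) (by rw [h]; simp)
  · exact key (-1) n (Or.inr rfl) (by rw [h]; simp)

end Pool.Agent.ALT
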