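import Pool.Agent.ALT.Md.AlgS
import Pool.Agent.ALT.Md.Beads
import Pool.Agent.ALT.Md.Dvd
import Pool.Agent.ALT.Ind.Fin

/-! # ALT, block Md: the theorem modulo the cube of `A ^ 4 + 1` -/

set_option autoImplicit false

namespace Pool.Agent.ALT

open Pool.Agent.ARB LaurentPolynomial Pool.Agent.Helper2

/-- an integral rational tangle is isotopic to a row of crossings -/
theorem int_row {I : Arb} (hI : Rat I) (hq : I.pq.2.natAbs = 1) :
    ∃ v : Word, Ok v 2 2 ∧ Sl v ∧ Iso 2 I.word v := by
  obtain ⟨p, n, s⟩ := int_slope hq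
  exact ⟨(addX p n .zero).word, ARB.okA _, sl_addX p n,
    rat_iso top hI (addX_rat p n Pool.Agent.ARB.Rat.zero) s⟩

/-- Combinations with `Om = -1` are rational tangles with local knots. -/
theorem Alt.bd_of (C : Alt) : NT.Cop C.nt → C.nt.J.Om = -1 → ∀ W : Arb, Rat W →
    NT.SS C.nt (NT.of W) → Bd C.word W.word := by
  induction C with
  | zero =>
      intro _ _ W hW s
      exact Bd.of_iso (rat_iso top Pool.Agent.ARB.Rat.zero hW s)
  | cross p =>
      intro _ _ W hW s
      have s0 : SameSlope (.sum .zero (.cross p)) (.cross p) := by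
        refine Or.inl ⟨?_, ?_⟩ <;> simp [Arb.pq]
      have s1 : SameSlope (.cross p) W := s
      have i := rat_iso top (Pool.Agent.ARB.Rat.add .zero p Pool.Agent.ARB.Rat.zero) hW (s0.trans s1)
      exact Bd.of_iso i
  | leaf L =>
      intro hc hO
      have h1 : 47 ≤ L.J.Om := L.om hc
      have h2 : L.J.Om = -1 := hO
      rw [h2] at h1
      norm_num at h1
  | rot C ih =>
      intro hc hO W hW s
      have hc' : NT.Cop C.nt := NT.Cop.rot hc
      have hO' : C.nt.J.Om = -1 := by
        rw [← hO]
        exact (Jet.Om_rot _).symm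
      obtain ⟨W', hW', s'⟩ := NT.ratEx C.nt hc'
      have h1 := (ih hc' hO' W' hW' s').rot (ARB.okA W')
      have s2 : SameSlope (.rot W') W := (s'.rot.symm).trans s
      exact h1.iso_right (rat_iso top (Pool.Agent.ARB.Rat.rot W' hW') hW s2)
  | sum A B ihA ihB =>
      intro hc hO W hW s
      have hc' : NT.Cop (A.nt.sum B.nt) := hc
      have hO' : (A.nt.sum B.nt).J.Om = -1 := hO
      obtain ⟨cA, cB, cq⟩ := NT.Cop.sum hc'
      obtain ⟨A', hA', sA⟩ := NT.ratEx A.nt cA
      obtain ⟨B', hB', sB⟩ := NT.ratEx B.nt cB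
      have okA' := Alt.okA A
      have okB' := Alt.okA B
      have hinf : ∀ R : Arb, Rat R → R.pq.2 = 0 → Iso 2 R.word (rotW []) := by
        intro R hR h0
        have h1 := rat_iso top hR infA_rat
          (slope_of_q (rat_om _ hR).1 (rat_om _ infA_rat).1 h0 rfl)
        exact h1
      by_cases qA : A.nt.x.2 = 0
      · have h1 : A.nt.J.Om = -1 := by
          rw [← (NT.om_zero hc' qA).2]
          exact hO'
        have h2 := ihA cA h1 A' hA' sA
        have qA' : A'.pq.2 = 0 := by
          have := sA.q0.1 qA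
          exact this
        have h3 := h2.iso_right (hinf A' hA' qA')
        have h4 : Bd (A.word ++ B.word) (rotW []) := Bd.infL okB' h3
        have qW : W.pq.2 = 0 := by
          have h5 : (A.nt.sum B.nt).x.2 = 0 := by
            show A.nt.x.2 * B.nt.x.2 = 0
            rw [qA, zero_mul]
          exact (NT.SS.q0 s).1 h5
        exact h4.iso_right (hinf W hW qW).symm
      · by_cases qB : B.nt.x.2 = 0
        · have h1 : B.nt.J.Om = -1 := by
            rw [NT.sum_comm] at hc' hO'
            rw [← (NT.om_zero hc' qB).2]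
            exact hO'
          have h2 := ihB cB h1 B' hB' sB
          have qB' : B'.pq.2 = 0 := by
            have := sB.q0.1 qB
            exact this
          have h3 := h2.iso_right (hinf B' hB' qB')
          have h4 : Bd (A.word ++ B.word) (rotW []) := Bd.infR okA' h3
          have qW : W.pq.2 = 0 := by
            have h5 : (A.nt.sum B.nt).x.2 = 0 := by
              show A.nt.x.2 * B.nt.x.2 = 0
              rw [qB, mul_zero]
            exact (NT.SS.q0 s).1 h5
          exact h4.iso_right (hinf W hW qW).symm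
        · have bA := (Alt.bo A cA).ge
          have bB := (Alt.bo B cB).ge
          have sqA := NT.sq_ge qA
          have sqB := NT.sq_ge qB
          have e := NT.om_sum A.nt B.nt
          rw [hO'] at e
          have m1 : 0 ≤ (A.nt.J.Om + 1) * ((B.nt.x.2 : ℚ) ^ 2 - 1) :=
            mul_nonneg bA (by linarith)
          have m2 : 0 ≤ (B.nt.J.Om + 1) * ((A.nt.x.2 : ℚ) ^ 2 - 1) :=
            mul_nonneg bB (by linarith)
          have m3 : 0 ≤ ((A.nt.x.2 : ℚ) ^ 2 - 1) * ((B.nt.x.2 : ℚ) ^ 2 - 1) :=
            mul_nonneg (by linarith) (by linarith)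
          have hOA : A.nt.J.Om = -1 := by nlinarith
          have hOB : B.nt.J.Om = -1 := by nlinarith
          have h0 : ((A.nt.x.2 : ℚ) ^ 2 - 1) * ((B.nt.x.2 : ℚ) ^ 2 - 1) = 0 := by nlinarith
          have h1 := ihA cA hOA A' hA' sA
          have h2 := ihB cB hOB B' hB' sB
          have one : ∀ z : ℤ, (z : ℚ) ^ 2 - 1 = 0 → z.natAbs = 1 := by
            intro z hz
            have h3 : z ^ 2 = 1 := by
              have h4 : (z : ℚ) ^ 2 = 1 := by linarith
              exact_mod_cast h4
            have h5 : z.natAbs ^ 2 = 1 := by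
              have h6 : ((z.natAbs : ℕ) : ℤ) ^ 2 = 1 := by
                rw [Int.natAbs_sq]
                exact h3
              exact_mod_cast h6
            exact (Nat.pow_eq_one.1 h5).resolve_right (by norm_num)
          have sAB : SameSlope (.sum A' B') W := by
            have h3 : NT.SS ((NT.of A').sum (NT.of B')) (NT.of W) :=
              ((sA.sumL B.nt).trans (sB.sumR (NT.of A'))).symm.trans s
            exact h3
          rcases mul_eq_zero.1 h0 with h3 | h3
          · have hqA : A'.pq.2.natAbs = 1 := by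
              have h4 := sA.q
              rw [one _ h3] at h4
              exact h4.symm
            obtain ⟨v, hv, hsl, hiso⟩ := int_row hA' hqA
            have h5 : Bd (A.word ++ B.word) (v ++ B'.word) :=
              Bd.sumL okA' hv (ARB.okA B') (h1.iso_right hiso) h2 hsl
            have h6 : Iso 2 (v ++ B'.word) (A'.word ++ B'.word) := hiso.symm.right _
            have h7 : Iso 2 (Arb.sum A' B').word W.word :=
              (int_iso top hB' hA' hqA hW ((SameSlope.sumC B' A').trans sAB)).2
            exact (h5.iso_right h6).iso_right h7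
          · have hqB : B'.pq.2.natAbs = 1 := by
              have h4 := sB.q
              rw [one _ h3] at h4
              exact h4.symm
            obtain ⟨v, hv, hsl, hiso⟩ := int_row hB' hqB
            have h5 : Bd (A.word ++ B.word) (A'.word ++ v) :=
              Bd.sumR okA' (ARB.okA A') hv h1 (h2.iso_right hiso) hsl
            have h6 : Iso 2 (A'.word ++ v) (A'.word ++ B'.word) :=
              Iso.left (ARB.okA A') hiso.symm
            have h7 : Iso 2 (Arb.sum A' B').word W.word :=
              (int_iso top hA' hB' hqB hW sAB).1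
            exact (h5.iso_right h6).iso_right h7

/-- an occurrence of a leaf: moving the rest of the diagram to the other side -/
theorem Alt.Occ.iso {T : Alt} {L : Lf} {f : Alt → Alt} {s : ℤ} (h : Alt.Occ T L f s) :
    ∀ X : Alt, Iso 0 (NW (T.word ++ X.word)) (NW (L.word ++ (f X).word)) := by
  induction h with
  | leaf L => exact fun X => Iso.refl _ _
  | sumL A B L f s _ ih =>
      intro X
      have h1 := ih (.sum B X)
      have e : A.word ++ (Alt.sum B X).word = (Alt.sum A B).word ++ X.word := by
        simp only [Alt.word, List.append_assoc]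
      rw [e] at h1
      exact h1
  | sumR A B L f s _ ih =>
      intro X
      have h1 := ih (.sum X A)
      have h2 := all_T1 A.word (B.word ++ X.word) (Alt.okA A) ((Alt.okA B).append (Alt.okA X))
      have e1 : A.word ++ (B.word ++ X.word) = (Alt.sum A B).word ++ X.word := by
        simp only [Alt.word, List.append_assoc]
      have e2 : (B.word ++ X.word) ++ A.word = B.word ++ (Alt.sum X A).word := by
        simp only [Alt.word, List.append_assoc]
      rw [e1, e2] at h2
      exact h2.trans h1
  | rot A L f s _ ih =>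
      intro X
      exact (all_T2 A.word X.word (Alt.okA A) (Alt.okA X)).trans (ih (.rot X))

/-- combinations without leaves are arborescent -/
theorem Alt.ofArb (T : Alt) (h : ¬ Alt.HL T) : ∃ R : Arb, R.word = T.word := by
  induction T with
  | zero => exact ⟨.zero, rfl⟩
  | cross p => exact ⟨.cross p, rfl⟩
  | leaf L => exact absurd trivial h
  | sum A B hA hB =>
      obtain ⟨R, hR⟩ := hA fun h1 => h (Or.inl h1)
      obtain ⟨S, hS⟩ := hB fun h1 => h (Or.inr h1)
      exact ⟨.sum R S, by simp only [Arb.word, Alt.word, hR, hS]⟩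
  | rot A hA =>
      obtain ⟨R, hR⟩ := hA h
      exact ⟨.rot R, by simp only [Arb.word, Alt.word, hR]⟩

theorem oneLeaf_of {T : Alt} (hl : Alt.HL T) (hp : T.nt.x.1.natAbs = 1) (hE : T.nt.J.E = 0) :
    ∃ L : Lf, Alt.Has L T ∧ OneLeaf (NW T.word) L.word := by
  obtain ⟨L, f, s, ho, hO, hD⟩ := Alt.exOcc T hl hp hE
  refine ⟨L, ho.has, ?_⟩
  have hc : NT.Cop (f .zero).nt := hD.cop.2
  obtain ⟨W, hW, sW⟩ := NT.ratEx _ hc
  obtain ⟨J0, J1, J2, J3, h0, h1, h2, h3, i⟩ := Alt.bd_of (f .zero) hc hO W hW sW
  refine ⟨W, hW, J0, J1, J2, J3, h0, h1, h2, h3, ?_⟩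
  have i1 := ho.iso .zero
  have e : T.word ++ (Alt.zero).word = T.word := List.append_nil _
  rw [e] at i1
  refine i1.trans ?_
  have i2 : Iso 2 (L.word ++ (f .zero).word) (L.word ++ (bd J0 J1 ++ (W.word ++ bd J2 J3))) :=
    Iso.left L.ok i
  exact congN _ _ i2

/-- THE THEOREM modulo the cube of `A ^ 4 + 1`. -/
theorem fin_mod (D : List Slice) (hD : IsDiagram D) (T : Tree)
    (hl : ∀ w, T.Leaf w → ∃ L : Lf, L.word = w) (hT : Iso 0 (forget D) (NW T.word))
    (hf : (LaurentPolynomial.T 4 + 1) ^ 3 ∣ fPoly D - 1) :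
    Iso 0 (forget D) O1 ∨ ∃ w, T.Leaf w ∧ OneLeaf (forget D) w := by
  obtain ⟨A, hA, hA2⟩ := exAlt T hl
  rw [← hA] at hT
  by_cases hHL : Alt.HL A
  · right
    obtain ⟨u0, hu0, h1⟩ := br_diag D A (ok_of_dirs D [] [] hD) hT
    have h2 : IsU (((-1 : LP)) ^ (writhe D).natAbs * LaurentPolynomial.T (-3 * writhe D)) := by
      rcases neg_one_pow_eq_or LP (writhe D).natAbs with h3 | h3 <;> rw [h3]
      · rw [one_mul]
        exact IsU.T _
      · rw [neg_one_mul]
        exact (IsU.T _).neg
    have h3 : fPoly D = ((((-1 : LP)) ^ (writhe D).natAbs *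
        LaurentPolynomial.T (-3 * writhe D)) * u0) * Alt.brN A := by
      show (-1 : LP) ^ (writhe D).natAbs * LaurentPolynomial.T (-3 * writhe D) * bracket D = _
      rw [h1]
      ring
    obtain ⟨v, hv, h4⟩ := (h2.mul hu0).inv
    have h5 : (LaurentPolynomial.T 4 + 1) ^ 3 ∣ A.pair.1 + loopVal * A.pair.2 - v := by
      have e1 : A.pair.1 + loopVal * A.pair.2 - v = v * (fPoly D - 1) := by
        rw [h3, mul_sub, ← mul_assoc, h4, Alt.brN]
        ring
      rw [e1]
      exact Dvd.dvd.mul_left hf v
    obtain ⟨h6, h7⟩ := (Alt.pj A).dvd v hv h5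
    have h8 : A.nt.x.1.natAbs = 1 := by
      rw [A.nt.hp] at h6
      rcases h6 with h6 | h6
      · have h9 : A.nt.x.1 = 1 := by exact_mod_cast h6
        rw [h9]
        rfl
      · have h9 : A.nt.x.1 = -1 := by exact_mod_cast h6
        rw [h9]
        rfl
    obtain ⟨L, h9, R, hR, J0, J1, J2, J3, j0, j1, j2, j3, i⟩ := oneLeaf_of hHL h8 h7
    exact ⟨L.word, hA2 L h9, R, hR, J0, J1, J2, J3, j0, j1, j2, j3, hT.trans i⟩
  · left
    obtain ⟨R, hR⟩ := Alt.ofArb A hHL
    exact ARB.fin D hD R (by rw [hR]; exact hT) hf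

/-- Both forms of the theorem together. -/
theorem fin_both (D : List Slice) (hD : IsDiagram D) (T : Tree)
    (hl : ∀ w, T.Leaf w → ∃ L : Lf, L.word = w) (hT : Iso 0 (forget D) (NW T.word))
    (hf : (LaurentPolynomial.T 4 + 1) ^ 3 ∣ fPoly D - 1) :
    Iso 0 (forget D) O1 ∨ ((∃ w, T.Leaf w ∧ OneLeaf (forget D) w) ∧
      (fPoly D = 1 → ∃ w, T.Leaf w ∧ BadLeaf w)) := by
  rcases fin_mod D hD T hl hT hf with h | h
  · exact Or.inl h
  · by_cases h1 : fPoly D = 1
    · rcases fin D hD T hl hT h1 with h2 | h2
      · exact Or.inl h2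
      · exact Or.inr ⟨h, fun _ => h2⟩
    · exact Or.inr ⟨h, fun h2 => absurd h2 h1⟩

end Pool.Agent.ALT
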