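import Pool.Agent.ALT.Ind.Alt

/-! # ALT, block Md (form modulo the cube of `A ^ 4 + 1`): the numerical induction

`Occ T L f s`: `L` is a leaf of `T`, and `f X` is the complement of `L` in the closure of `T + X`;
`s` is the product of the denominators on the way from the root to `L`. -/

set_option autoImplicit false

namespace Pool.Agent.ALT

open Pool.Agent.ARB

/-- the quantity `(q² - 1) (q'² - 1)` -/
theorem md_two_q {a b : ℤ} (h : IsCoprime a b) :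
    ((a : ℚ) ^ 2 - 1) * ((b : ℚ) ^ 2 - 1) = 0 ∨ 24 ≤ ((a : ℚ) ^ 2 - 1) * ((b : ℚ) ^ 2 - 1) := by
  by_cases ha : a.natAbs = 1
  · left
    rw [NT.sq_one ha]
    ring
  by_cases hb : b.natAbs = 1
  · left
    rw [NT.sq_one hb]
    ring
  right
  have ha0 : a.natAbs ≠ 0 := by
    intro h0
    rw [Int.natAbs_eq_zero] at h0
    rw [h0] at h
    exact hb (Int.isUnit_iff_natAbs_eq.mp (isCoprime_zero_left.mp h))
  have hb0 : b.natAbs ≠ 0 := by
    intro h0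
    rw [Int.natAbs_eq_zero] at h0
    rw [h0] at h
    exact ha (Int.isUnit_iff_natAbs_eq.mp (isCoprime_zero_right.mp h))
  have hne : ¬ (a.natAbs = 2 ∧ b.natAbs = 2) := by
    rintro ⟨h1, h2⟩
    have h3 : Nat.Coprime a.natAbs b.natAbs := Int.isCoprime_iff_gcd_eq_one.mp h
    rw [h1, h2] at h3
    exact absurd h3 (by decide)
  have ea : (a : ℚ) ^ 2 = ((a.natAbs : ℕ) : ℚ) ^ 2 := by
    rw [Nat.cast_natAbs]
    push_cast
    rw [sq_abs]
  have eb : (b : ℚ) ^ 2 = ((b.natAbs : ℕ) : ℚ) ^ 2 := by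
    rw [Nat.cast_natAbs]
    push_cast
    rw [sq_abs]
  rw [ea, eb]
  have h2 : (2 ≤ a.natAbs ∧ 3 ≤ b.natAbs) ∨ (3 ≤ a.natAbs ∧ 2 ≤ b.natAbs) := by omega
  rcases h2 with ⟨h2, h3⟩ | ⟨h2, h3⟩
  · have h4 : (2 : ℚ) ≤ (a.natAbs : ℕ) := by exact_mod_cast h2
    have h5 : (3 : ℚ) ≤ (b.natAbs : ℕ) := by exact_mod_cast h3
    have h6 : (3 : ℚ) ≤ ((a.natAbs : ℕ) : ℚ) ^ 2 - 1 := by nlinarith
    have h7 : (8 : ℚ) ≤ ((b.natAbs : ℕ) : ℚ) ^ 2 - 1 := by nlinarith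
    nlinarith
  · have h4 : (3 : ℚ) ≤ (a.natAbs : ℕ) := by exact_mod_cast h2
    have h5 : (2 : ℚ) ≤ (b.natAbs : ℕ) := by exact_mod_cast h3
    have h6 : (8 : ℚ) ≤ ((a.natAbs : ℕ) : ℚ) ^ 2 - 1 := by nlinarith
    have h7 : (3 : ℚ) ≤ ((b.natAbs : ℕ) : ℚ) ^ 2 - 1 := by nlinarith
    nlinarith

namespace Alt

/-- twice the total weight of the leaves -/
def vv : Alt → ℚ
  | .zero => 0
  | .cross _ => 0
  | .leaf L => L.J.Om + 1
  | .sum S T => S.vv * (T.nt.x.2 : ℚ) ^ 2 + T.vv * (S.nt.x.2 : ℚ) ^ 2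
  | .rot T => T.vv

/-- there is a leaf -/
def HL : Alt → Prop
  | .zero => False
  | .cross _ => False
  | .leaf _ => True
  | .sum S T => S.HL ∨ T.HL
  | .rot T => T.HL

/-- bounds for `Om` and `vv` -/
structure Bo (T : Alt) : Prop where
  om : T.nt.J.Om + 1 = 0 ∨ 24 ≤ T.nt.J.Om + 1
  v0 : 0 ≤ T.vv
  vo : T.vv ≤ T.nt.J.Om + 1
  v1 : T.vv = 0 ∨ 48 ≤ T.vv

theorem Bo.ge {T : Alt} (h : Bo T) : 0 ≤ T.nt.J.Om + 1 := h.v0.trans h.vo

theorem bo : ∀ T : Alt, NT.Cop T.nt → Bo T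
  | .zero, _ => by
      have e : (Alt.zero).nt.J.Om + 1 = 0 := by
        show Jet.zero.Om + 1 = 0
        norm_num [Jet.zero, Jet.Om]
      exact ⟨Or.inl e, le_rfl, e.symm.le, Or.inl rfl⟩
  | .cross p, _ => by
      have e : (Alt.cross p).nt.J.Om + 1 = 0 := by
        show (Jet.cross p).Om + 1 = 0
        cases p <;> norm_num [Jet.cross, Jet.Om]
      exact ⟨Or.inl e, le_rfl, e.symm.le, Or.inl rfl⟩
  | .leaf L, h => by
      have h1 : 47 ≤ L.J.Om := L.om h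
      exact ⟨Or.inr (by show 24 ≤ L.J.Om + 1; linarith), by show 0 ≤ L.J.Om + 1; linarith,
        le_rfl, Or.inr (by show 48 ≤ L.J.Om + 1; linarith)⟩
  | .rot T, h => by
      have h1 := bo T (NT.Cop.rot h)
      have e : (Alt.rot T).nt.J.Om = T.nt.J.Om := Jet.Om_rot _
      exact ⟨by rw [e]; exact h1.om, h1.v0, by rw [e]; exact h1.vo, h1.v1⟩
  | .sum A B, h => by
      obtain ⟨cA, cB, cq⟩ := NT.Cop.sum h
      have hA := bo A cA
      have hB := bo B cB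
      have e : (Alt.sum A B).nt.J.Om + 1 = (A.nt.J.Om + 1) * (B.nt.x.2 : ℚ) ^ 2 +
          (B.nt.J.Om + 1) * (A.nt.x.2 : ℚ) ^ 2 +
          ((A.nt.x.2 : ℚ) ^ 2 - 1) * ((B.nt.x.2 : ℚ) ^ 2 - 1) := NT.om_sum A.nt B.nt
      have ev : (Alt.sum A B).vv = A.vv * (B.nt.x.2 : ℚ) ^ 2 + B.vv * (A.nt.x.2 : ℚ) ^ 2 := rfl
      have h2 := md_two_q cq
      have sA : (0 : ℚ) ≤ (A.nt.x.2 : ℚ) ^ 2 := sq_nonneg _
      have sB : (0 : ℚ) ≤ (B.nt.x.2 : ℚ) ^ 2 := sq_nonneg _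
      have h3 : 0 ≤ ((A.nt.x.2 : ℚ) ^ 2 - 1) * ((B.nt.x.2 : ℚ) ^ 2 - 1) := by
        rcases h2 with h2 | h2 <;> linarith
      have ge2 := hA.ge
      have ge3 := hB.ge
      have m1 : 0 ≤ (A.nt.J.Om + 1) * (B.nt.x.2 : ℚ) ^ 2 := mul_nonneg ge2 sB
      have m2 : 0 ≤ (B.nt.J.Om + 1) * (A.nt.x.2 : ℚ) ^ 2 := mul_nonneg ge3 sA
      have n1 : 0 ≤ A.vv * (B.nt.x.2 : ℚ) ^ 2 := mul_nonneg hA.v0 sB
      have n2 : 0 ≤ B.vv * (A.nt.x.2 : ℚ) ^ 2 := mul_nonneg hB.v0 sA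
      have o1 : A.vv * (B.nt.x.2 : ℚ) ^ 2 ≤ (A.nt.J.Om + 1) * (B.nt.x.2 : ℚ) ^ 2 :=
        mul_le_mul_of_nonneg_right hA.vo sB
      have o2 : B.vv * (A.nt.x.2 : ℚ) ^ 2 ≤ (B.nt.J.Om + 1) * (A.nt.x.2 : ℚ) ^ 2 :=
        mul_le_mul_of_nonneg_right hB.vo sA
      have z1 : ∀ c : ℚ, 0 ≤ c → ∀ (a : ℚ) (z : ℤ), (a = 0 ∨ c ≤ a) →
          (a * (z : ℚ) ^ 2 = 0 ∨ c ≤ a * (z : ℚ) ^ 2) := by
        intro c hc a z ha
        rcases ha with ha | ha
        · left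
          rw [ha, zero_mul]
        · by_cases hz : z = 0
          · left
            rw [hz]
            norm_num
          · right
            have := NT.sq_ge hz
            nlinarith
      refine ⟨?_, by rw [ev]; linarith, by rw [ev, e]; linarith, ?_⟩
      · rw [e]
        have a1 := z1 24 (by norm_num) _ B.nt.x.2 hA.om
        have a2 := z1 24 (by norm_num) _ A.nt.x.2 hB.om
        rcases a1 with a1 | a1 <;> rcases a2 with a2 | a2 <;> rcases h2 with h2 | h2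
        · left
          rw [a1, a2, h2]
          norm_num
        all_goals right; linarith
      · rw [ev]
        have a1 := z1 48 (by norm_num) _ B.nt.x.2 hA.v1
        have a2 := z1 48 (by norm_num) _ A.nt.x.2 hB.v1
        rcases a1 with a1 | a1 <;> rcases a2 with a2 | a2
        · left
          rw [a1, a2]
          norm_num
        all_goals right; linarith

/-- occurrences of leaves -/
inductive Occ : Alt → Lf → (Alt → Alt) → ℤ → Prop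
  | leaf (L : Lf) : Occ (.leaf L) L (fun X => X) 1
  | sumL (A B : Alt) (L : Lf) (f : Alt → Alt) (s : ℤ) : Occ A L f s →
      Occ (.sum A B) L (fun X => f (.sum B X)) (s * B.nt.x.2)
  | sumR (A B : Alt) (L : Lf) (f : Alt → Alt) (s : ℤ) : Occ B L f s →
      Occ (.sum A B) L (fun X => f (.sum X A)) (s * A.nt.x.2)
  | rot (A : Alt) (L : Lf) (f : Alt → Alt) (s : ℤ) : Occ A L f s →
      Occ (.rot A) L (fun X => f (.rot X)) s

theorem Occ.has {T : Alt} {L : Lf} {f : Alt → Alt} {s : ℤ} (h : Occ T L f s) : Has L T := by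
  induction h with
  | leaf L => rfl
  | sumL A B L f s _ ih => exact Or.inl ih
  | sumR A B L f s _ ih => exact Or.inr ih
  | rot A L f s _ ih => exact ih

/-- `Om` of the complement -/
theorem Occ.om {T : Alt} {L : Lf} {f : Alt → Alt} {s : ℤ} (h : Occ T L f s) :
    ∀ X Y : Alt, NT.SS X.nt Y.nt →
      (f X).nt.J.Om - (f Y).nt.J.Om = (s : ℚ) ^ 2 * (X.nt.J.Om - Y.nt.J.Om) := by
  have key : ∀ B X Y : Alt, NT.SS X.nt Y.nt →
      (Alt.sum B X).nt.J.Om - (Alt.sum B Y).nt.J.Om =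
        (B.nt.x.2 : ℚ) ^ 2 * (X.nt.J.Om - Y.nt.J.Om) := by
    intro B X Y h
    have e1 : (Alt.sum B X).nt.J.Om + 1 = (B.nt.J.Om + 1) * (X.nt.x.2 : ℚ) ^ 2 +
          (X.nt.J.Om + 1) * (B.nt.x.2 : ℚ) ^ 2 +
          ((B.nt.x.2 : ℚ) ^ 2 - 1) * ((X.nt.x.2 : ℚ) ^ 2 - 1) := NT.om_sum B.nt X.nt
    have e2 : (Alt.sum B Y).nt.J.Om + 1 = (B.nt.J.Om + 1) * (Y.nt.x.2 : ℚ) ^ 2 +
          (Y.nt.J.Om + 1) * (B.nt.x.2 : ℚ) ^ 2 +
          ((B.nt.x.2 : ℚ) ^ 2 - 1) * ((Y.nt.x.2 : ℚ) ^ 2 - 1) := NT.om_sum B.nt Y.nt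
    have e3 : (X.nt.x.2 : ℚ) ^ 2 = (Y.nt.x.2 : ℚ) ^ 2 := by
      rcases h with ⟨_, h⟩ | ⟨_, h⟩
      · rw [h]
      · rw [h]
        push_cast
        ring
    rw [e3] at e1
    linear_combination e1 - e2
  induction h with
  | leaf L =>
      intro X Y _
      push_cast
      ring
  | sumL A B L f s _ ih =>
      intro X Y hXY
      have h1 := ih (.sum B X) (.sum B Y) (hXY.sumR B.nt)
      show (f (.sum B X)).nt.J.Om - (f (.sum B Y)).nt.J.Om = _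
      rw [h1, key B X Y hXY]
      push_cast
      ring
  | sumR A B L f s _ ih =>
      intro X Y hXY
      have h1 := ih (.sum X A) (.sum Y A) (hXY.sumL A.nt)
      have c : ∀ Z : Alt, (Alt.sum Z A).nt.J.Om = (Alt.sum A Z).nt.J.Om := by
        intro Z
        have : (Alt.sum Z A).nt = (Alt.sum A Z).nt := NT.sum_comm _ _
        rw [this]
      show (f (.sum X A)).nt.J.Om - (f (.sum Y A)).nt.J.Om = _
      rw [h1, c X, c Y, key A X Y hXY]
      push_cast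
      ring
  | rot A L f s _ ih =>
      intro X Y hXY
      have h1 := ih (.rot X) (.rot Y) hXY.rot
      have c : ∀ Z : Alt, (Alt.rot Z).nt.J.Om = Z.nt.J.Om := fun Z => Jet.Om_rot _
      show (f (.rot X)).nt.J.Om - (f (.rot Y)).nt.J.Om = _
      rw [h1, c X, c Y]

/-- the determinant of the closure of leaf and complement -/
theorem Occ.d1 {T : Alt} {L : Lf} {f : Alt → Alt} {s : ℤ} (h : Occ T L f s) :
    ∀ X : Alt, NT.D1 T.nt X.nt → NT.D1 (Alt.leaf L).nt (f X).nt := by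
  induction h with
  | leaf L => exact fun X h => h
  | sumL A B L f s _ ih =>
      intro X hX
      exact ih (.sum B X) (NT.D1.assoc hX)
  | sumR A B L f s _ ih =>
      intro X hX
      refine ih (.sum X A) ?_
      have h1 : NT.D1 (B.nt.sum A.nt) X.nt := by
        rw [NT.sum_comm]
        exact hX
      have h2 : NT.D1 B.nt (A.nt.sum X.nt) := h1.assoc
      rw [NT.sum_comm] at h2
      exact h2
  | rot A L f s _ ih =>
      intro X hX
      exact ih (.rot X) (NT.D1.rot hX)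

/-- the first claim -/
def Q1 (T : Alt) : Prop := ∀ R : Arb, Rat R → NT.D1 T.nt (NT.of R) →
  (∀ (L : Lf) (f : Alt → Alt) (s : ℤ), Occ T L f s → s = 0 → (f (of R)).nt.J.Om ≠ -1) →
  (T.nt.sum (NT.of R)).J.E ≤ 12 * T.vv ∧ (HL T → (T.nt.sum (NT.of R)).J.E < 12 * T.vv)

/-- the second claim -/
def Q2 (T : Alt) : Prop := ∀ R : Arb, Rat R → NT.D1 T.nt (NT.of R) →
  (∀ (L : Lf) (f : Alt → Alt) (s : ℤ), Occ T L f s → (f (of R)).nt.J.Om ≠ -1) →
  (T.nt.sum (NT.of R)).J.E ≤ 0 ∧ (HL T → (T.nt.sum (NT.of R)).J.E < 0)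

theorem q_rot (A : Alt) (h1 : Q1 A) (h2 : Q2 A) : Q1 (.rot A) ∧ Q2 (.rot A) := by
  have e : ∀ R : Arb, ((Alt.rot A).nt.sum (NT.of R)).J.E = (A.nt.sum (NT.of (.rot R))).J.E :=
    fun R => NT.E_rot A.nt (NT.of R)
  constructor
  · intro R hR hD hO
    rw [e R]
    exact h1 (.rot R) (Rat.rot _ hR) (NT.D1.rot hD) fun L f s ho hs =>
      hO L (fun X => f (.rot X)) s (Occ.rot A L f s ho) hs
  · intro R hR hD hO
    rw [e R]
    exact h2 (.rot R) (Rat.rot _ hR) (NT.D1.rot hD) fun L f s ho =>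
      hO L (fun X => f (.rot X)) s (Occ.rot A L f s ho)

end Alt

end Pool.Agent.ALT
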