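import Pool.Agent.ALT.Md.Alg

/-! # ALT, block Md: the numerical induction, sums -/

set_option autoImplicit false

namespace Pool.Agent.ALT

open Pool.Agent.ARB

namespace Alt

/-- everything that is used about the decomposition of `(A + B) + R` -/
structure Fa (A B : Alt) (R : Arb) (Ch Ch' : Arb) (c c' c'' ea eb e : ℚ) : Prop where
  rC : Rat Ch
  rD : Rat Ch'
  pA : NT.D1 A.nt (NT.of Ch)
  pB : NT.D1 B.nt (NT.of Ch')
  sC : NT.SS (Alt.sum B (of R)).nt (of Ch).nt
  sD : NT.SS (Alt.sum (of R) A).nt (of Ch').nt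
  bA : Bo A
  bB : Bo B
  hc : c = (Alt.sum B (of R)).nt.J.Om + 1
  hc'' : c'' = (Alt.sum (of R) A).nt.J.Om + 1
  c0 : c = 0 ∨ 24 ≤ c
  c0' : c' = 0 ∨ 24 ≤ c'
  ce : c = (B.nt.J.Om + 1) * (R.pq.2 : ℚ) ^ 2 +
    ((B.nt.x.2 : ℚ) ^ 2 - 1) * ((R.pq.2 : ℚ) ^ 2 - 1)
  ce' : c' = ((R.pq.2 : ℚ) ^ 2 - 1) * ((A.nt.x.2 : ℚ) ^ 2 - 1)
  ce'' : c'' = (A.nt.J.Om + 1) * (R.pq.2 : ℚ) ^ 2 + c'
  hea : ea = (A.nt.sum (NT.of Ch)).J.E
  heb : eb = (B.nt.sum (NT.of Ch')).J.E
  he : e = ((Alt.sum A B).nt.sum (NT.of R)).J.E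
  le : e ≤ ea + eb - 1 / 2 * (A.nt.J.Om + 1) * c - 1 / 2 * (B.nt.J.Om + 1) * c'
  qA : A.nt.x.2 = 0 → B.nt.x.2.natAbs = 1 ∧ R.pq.2.natAbs = 1
  qB : B.nt.x.2 = 0 → A.nt.x.2.natAbs = 1 ∧ R.pq.2.natAbs = 1

theorem exFa (A B : Alt) (R : Arb) (hR : Rat R) (h : NT.D1 (Alt.sum A B).nt (NT.of R)) :
    ∃ (Ch Ch' : Arb) (c c' c'' ea eb e : ℚ), Fa A B R Ch Ch' c c' c'' ea eb e := by
  obtain ⟨A', B', Ch, Ch', D⟩ := NT.exDec A.nt B.nt R h
  have bA := bo A D.pC.cop.1
  have bB := bo B D.pD.cop.1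
  have hOR : (NT.of R).J.Om = -1 := NT.om_of hR
  have hOA' : (NT.of A').J.Om = -1 := NT.om_of D.rA
  have hqA' : ((NT.of A').x.2 : ℚ) ^ 2 = (A.nt.x.2 : ℚ) ^ 2 := by
    rcases D.sA with ⟨_, h1⟩ | ⟨_, h1⟩
    · rw [h1]
    · rw [h1]
      push_cast
      ring
  have e1 : (B.nt.sum (NT.of R)).J.Om + 1 = (B.nt.J.Om + 1) * (R.pq.2 : ℚ) ^ 2 +
      ((B.nt.x.2 : ℚ) ^ 2 - 1) * ((R.pq.2 : ℚ) ^ 2 - 1) := by
    have h1 := NT.om_sum B.nt (NT.of R)
    rw [hOR] at h1
    have h2 : ((NT.of R).x.2 : ℚ) = (R.pq.2 : ℚ) := rfl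
    rw [h2] at h1
    rw [h1]
    ring
  have e2 : ((NT.of R).sum (NT.of A')).J.Om + 1 =
      ((R.pq.2 : ℚ) ^ 2 - 1) * ((A.nt.x.2 : ℚ) ^ 2 - 1) := by
    have h1 := NT.om_sum (NT.of R) (NT.of A')
    rw [hOR, hOA', hqA'] at h1
    have h2 : ((NT.of R).x.2 : ℚ) = (R.pq.2 : ℚ) := rfl
    rw [h2] at h1
    rw [h1]
    ring
  have e3 : ((NT.of R).sum A.nt).J.Om + 1 = (A.nt.J.Om + 1) * (R.pq.2 : ℚ) ^ 2 +
      ((R.pq.2 : ℚ) ^ 2 - 1) * ((A.nt.x.2 : ℚ) ^ 2 - 1) := by
    have h1 := NT.om_sum (NT.of R) A.nt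
    rw [hOR] at h1
    have h2 : ((NT.of R).x.2 : ℚ) = (R.pq.2 : ℚ) := rfl
    rw [h2] at h1
    rw [h1]
    ring
  have n1 : (Alt.sum B (of R)).nt = B.nt.sum (NT.of R) := by
    show B.nt.sum (of R).nt = _
    rw [of_nt]
  have n2 : (Alt.sum (of R) A).nt = (NT.of R).sum A.nt := by
    show (of R).nt.sum A.nt = _
    rw [of_nt]
  have hcop : ∀ x y : ℤ, NT.D1 (A.nt.sum B.nt) (NT.of R) → True := fun _ _ _ => trivial
  have hp : (Alt.sum A B).nt.x.1 = A.nt.x.1 * B.nt.x.2 + A.nt.x.2 * B.nt.x.1 := rfl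
  have hd : ((A.nt.x.1 * B.nt.x.2 + A.nt.x.2 * B.nt.x.1) * R.pq.2 +
      A.nt.x.2 * B.nt.x.2 * R.pq.1).natAbs = 1 := h
  refine ⟨Ch, Ch', (B.nt.sum (NT.of R)).J.Om + 1, ((NT.of R).sum (NT.of A')).J.Om + 1,
    ((NT.of R).sum A.nt).J.Om + 1, (A.nt.sum (NT.of Ch)).J.E, (B.nt.sum (NT.of Ch')).J.E,
    ((A.nt.sum B.nt).sum (NT.of R)).J.E,
    { rC := D.rC, rD := D.rD, pA := D.pA, pB := D.pB, sC := ?_, sD := ?_, bA := bA, bB := bB,
      hc := by rw [n1], hc'' := by rw [n2], c0 := ?_, c0' := ?_, ce := e1, ce' := e2,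
      ce'' := by rw [e3, e2], hea := rfl, heb := rfl, he := rfl, le := ?_, qA := ?_, qB := ?_ }⟩
  · rw [n1, of_nt]
    exact D.sC
  · rw [n2, of_nt]
    exact (D.sA.sumR (NT.of R)).trans D.sD
  · have h1 := bo (Alt.sum B (of R)) (by rw [n1]; exact D.pC.cop.2)
    have h2 := h1.om
    rw [n1] at h2
    exact h2
  · have h1 := bo (Alt.sum (of R) (of A')) (by
      show NT.Cop ((of R).nt.sum (of A').nt)
      rw [of_nt, of_nt]
      exact D.pD.cop.2)
    have h2 := h1.om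
    have n3 : (Alt.sum (of R) (of A')).nt = (NT.of R).sum (NT.of A') := by
      show (of R).nt.sum (of A').nt = _
      rw [of_nt, of_nt]
    rw [n3] at h2
    exact h2
  · have h1 := NT.three_le' D.rA D.rB hR D.p3
    have h2 := D.eq
    rw [h2]
    linarith
  · intro h0
    rw [h0] at hd
    have h1 : ((A.nt.x.1 * B.nt.x.2) * R.pq.2).natAbs = 1 := by
      rw [← hd]
      congr 1
      ring
    rw [Int.natAbs_mul, Int.natAbs_mul] at h1
    have h2 := Nat.eq_one_of_mul_eq_one_left h1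
    have h3 := Nat.eq_one_of_mul_eq_one_right h1
    exact ⟨Nat.eq_one_of_mul_eq_one_left h3, h2⟩
  · intro h0
    rw [h0] at hd
    have h1 : ((A.nt.x.2 * B.nt.x.1) * R.pq.2).natAbs = 1 := by
      rw [← hd]
      congr 1
      ring
    rw [Int.natAbs_mul, Int.natAbs_mul] at h1
    have h2 := Nat.eq_one_of_mul_eq_one_left h1
    have h3 := Nat.eq_one_of_mul_eq_one_right h1
    exact ⟨Nat.eq_one_of_mul_eq_one_right h3, h2⟩

/-- the hypothesis of the first claim -/
def N1 (T : Alt) (X : Alt) : Prop := ∀ (L : Lf) (f : Alt → Alt) (s : ℤ), Occ T L f s → s = 0 →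
  (f X).nt.J.Om ≠ -1

/-- the hypothesis of the second claim -/
def N2 (T : Alt) (X : Alt) : Prop := ∀ (L : Lf) (f : Alt → Alt) (s : ℤ), Occ T L f s →
  (f X).nt.J.Om ≠ -1

theorem N2.n1 {T X : Alt} (h : N2 T X) : N1 T X := fun L f s ho _ => h L f s ho

/-- change of the complement -/
theorem N1.change {T X Y : Alt} (h : N1 T X) (hs : NT.SS X.nt Y.nt) : N1 T Y := by
  intro L f s ho h0
  have h1 := ho.om X Y hs
  rw [h0] at h1
  have h2 := h L f s ho h0
  intro h3
  apply h2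
  rw [h3] at h1
  push_cast at h1
  linarith

theorem N2.change {T X Y : Alt} (h : N2 T X) (hs : NT.SS X.nt Y.nt)
    (hO : X.nt.J.Om = Y.nt.J.Om) : N2 T Y := by
  intro L f s ho
  have h1 := ho.om X Y hs
  rw [hO] at h1
  have h2 := h L f s ho
  intro h3
  apply h2
  rw [h3] at h1
  linarith

theorem N1.left {A B X : Alt} (h : N1 (.sum A B) X) : N1 A (.sum B X) := by
  intro L f s ho h0
  exact h L (fun X => f (.sum B X)) (s * B.nt.x.2) (Occ.sumL A B L f s ho) (by rw [h0, zero_mul])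

theorem N1.right {A B X : Alt} (h : N1 (.sum A B) X) : N1 B (.sum X A) := by
  intro L f s ho h0
  exact h L (fun X => f (.sum X A)) (s * A.nt.x.2) (Occ.sumR A B L f s ho) (by rw [h0, zero_mul])

theorem N2.left {A B X : Alt} (h : N2 (.sum A B) X) : N2 A (.sum B X) := by
  intro L f s ho
  exact h L (fun X => f (.sum B X)) (s * B.nt.x.2) (Occ.sumL A B L f s ho)

theorem N2.right {A B X : Alt} (h : N2 (.sum A B) X) : N2 B (.sum X A) := by
  intro L f s ho
  exact h L (fun X => f (.sum X A)) (s * A.nt.x.2) (Occ.sumR A B L f s ho)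

/-- if a summand has slope infinity the first hypothesis gives the second one -/
theorem N1.right0 {A B X : Alt} (h : N1 (.sum A B) X) (h0 : A.nt.x.2 = 0) : N2 B (.sum X A) := by
  intro L f s ho
  exact h L (fun X => f (.sum X A)) (s * A.nt.x.2) (Occ.sumR A B L f s ho)
    (by rw [h0, mul_zero])

theorem N1.left0 {A B X : Alt} (h : N1 (.sum A B) X) (h0 : B.nt.x.2 = 0) : N2 A (.sum B X) := by
  intro L f s ho
  exact h L (fun X => f (.sum B X)) (s * B.nt.x.2) (Occ.sumL A B L f s ho)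
    (by rw [h0, mul_zero])

theorem om_of_nt {R : Arb} (hR : Rat R) : (of R).nt.J.Om = -1 := by
  rw [of_nt]
  exact NT.om_of hR

theorem q_sum1 (A B : Alt) (hA1 : Q1 A) (hA2 : Q2 A) (hB1 : Q1 B) (hB2 : Q2 B) :
    Q1 (.sum A B) := by
  intro R hR hD hO
  obtain ⟨Ch, Ch', c, c', c'', ea, eb, e, F⟩ := exFa A B R hR hD
  have hN : N1 (.sum A B) (of R) := hO
  have nA : N1 A (of Ch) := hN.left.change F.sC
  have nB : N1 B (of Ch') := hN.right.change F.sD
  have qa := hA1 Ch F.rC F.pA nA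
  have qb := hB1 Ch' F.rD F.pB nB
  rw [← F.hea] at qa
  rw [← F.heb] at qb
  rw [← F.he]
  have ev : (Alt.sum A B).vv = A.vv * (B.nt.x.2 : ℚ) ^ 2 + B.vv * (A.nt.x.2 : ℚ) ^ 2 := rfl
  have bA := F.bA
  have bB := F.bB
  have a0 := bA.ge
  have b0 := bB.ge
  have av := bA.v0
  have bv := bB.v0
  have c0 : 0 ≤ c := by
    rcases F.c0 with h | h <;> linarith
  have c0' : 0 ≤ c' := by
    rcases F.c0' with h | h <;> linarith
  have m1 : 0 ≤ (A.nt.J.Om + 1) * c := mul_nonneg a0 c0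
  have m2 : 0 ≤ (B.nt.J.Om + 1) * c' := mul_nonneg b0 c0'
  have hle := F.le
  rw [ev]
  by_cases qA : A.nt.x.2 = 0
  · obtain ⟨h1, h2⟩ := F.qA qA
    have sB := NT.sq_one h1
    have sR := NT.sq_one h2
    have hv : A.vv * (B.nt.x.2 : ℚ) ^ 2 + B.vv * (A.nt.x.2 : ℚ) ^ 2 = A.vv := by
      rw [sB, qA]
      push_cast
      ring
    rw [hv]
    have hc : c = B.nt.J.Om + 1 := by
      rw [F.ce, sB, sR]
      ring
    have hc' : c' = 0 := by
      rw [F.ce', sR]
      ring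
    rcases bA.om with hw | hw
    · -- `w_A = 0`
      have hc'' : c'' = 0 := by
        rw [F.ce'', hw, hc']
        ring
      have nB2 : N2 B (of Ch') := by
        refine (hN.right0 qA).change F.sD ?_
        rw [om_of_nt F.rD]
        have := F.hc''
        linarith
      have qb2 := hB2 Ch' F.rD F.pB nB2
      rw [← F.heb] at qb2
      refine ⟨by linarith [qa.1, qb2.1], fun hl => ?_⟩
      rcases hl with hl | hl
      · linarith [qa.2 hl, qb2.1]
      · linarith [qa.1, qb2.2 hl]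
    · have hm : 24 * (B.nt.J.Om + 1) ≤ (A.nt.J.Om + 1) * c := by
        rw [hc]
        exact mul_le_mul_of_nonneg_right hw b0
      have hbo := bB.vo
      refine ⟨by linarith [qa.1, qb.1], fun hl => ?_⟩
      rcases hl with hl | hl
      · linarith [qa.2 hl, qb.1]
      · linarith [qa.1, qb.2 hl]
  · by_cases qB : B.nt.x.2 = 0
    · obtain ⟨h1, h2⟩ := F.qB qB
      have sA := NT.sq_one h1
      have sR := NT.sq_one h2
      have hv : A.vv * (B.nt.x.2 : ℚ) ^ 2 + B.vv * (A.nt.x.2 : ℚ) ^ 2 = B.vv := by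
        rw [sA, qB]
        push_cast
        ring
      rw [hv]
      have hc : c = B.nt.J.Om + 1 := by
        rw [F.ce, sR]
        ring
      have hc' : c' = 0 := by
        rw [F.ce', sR]
        ring
      rcases bB.om with hw | hw
      · have nA2 : N2 A (of Ch) := by
          refine (hN.left0 qB).change F.sC ?_
          rw [om_of_nt F.rC]
          have := F.hc
          linarith
        have qa2 := hA2 Ch F.rC F.pA nA2
        rw [← F.hea] at qa2
        refine ⟨by linarith [qa2.1, qb.1], fun hl => ?_⟩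
        rcases hl with hl | hl
        · linarith [qa2.2 hl, qb.1]
        · linarith [qa2.1, qb.2 hl]
      · have hm : (A.nt.J.Om + 1) * 24 ≤ (A.nt.J.Om + 1) * c := by
          rw [hc]
          exact mul_le_mul_of_nonneg_left hw a0
        have hbo := bA.vo
        refine ⟨by linarith [qa.1, qb.1], fun hl => ?_⟩
        rcases hl with hl | hl
        · linarith [qa.2 hl, qb.1]
        · linarith [qa.1, qb.2 hl]
    · have sA := NT.sq_ge qA
      have sB := NT.sq_ge qB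
      have k1 : A.vv ≤ A.vv * (B.nt.x.2 : ℚ) ^ 2 := by nlinarith
      have k2 : B.vv ≤ B.vv * (A.nt.x.2 : ℚ) ^ 2 := by nlinarith
      refine ⟨by linarith [qa.1, qb.1], fun hl => ?_⟩
      rcases hl with hl | hl
      · linarith [qa.2 hl, qb.1]
      · linarith [qa.1, qb.2 hl]

theorem q_sum2 (A B : Alt) (hA1 : Q1 A) (hA2 : Q2 A) (hB1 : Q1 B) (hB2 : Q2 B) :
    Q2 (.sum A B) := by
  intro R hR hD hO
  obtain ⟨Ch, Ch', c, c', c'', ea, eb, e, F⟩ := exFa A B R hR hD
  have hN : N2 (.sum A B) (of R) := hO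
  have nA : N1 A (of Ch) := hN.n1.left.change F.sC
  have nB : N1 B (of Ch') := hN.n1.right.change F.sD
  have qa := hA1 Ch F.rC F.pA nA
  have qb := hB1 Ch' F.rD F.pB nB
  rw [← F.hea] at qa
  rw [← F.heb] at qb
  rw [← F.he]
  have bA := F.bA
  have bB := F.bB
  have a0 := bA.ge
  have b0 := bB.ge
  have av := bA.v0
  have bv := bB.v0
  have ao := bA.vo
  have bo' := bB.vo
  have c0 : 0 ≤ c := by
    rcases F.c0 with h | h <;> linarith
  have c0' : 0 ≤ c' := by
    rcases F.c0' with h | h <;> linarith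
  have m1 : 0 ≤ (A.nt.J.Om + 1) * c := mul_nonneg a0 c0
  have m2 : 0 ≤ (B.nt.J.Om + 1) * c' := mul_nonneg b0 c0'
  have hle := F.le
  -- first half
  have XA : ea - 1 / 2 * (A.nt.J.Om + 1) * c ≤ 0 ∧
      (HL A → ea - 1 / 2 * (A.nt.J.Om + 1) * c < 0) := by
    rcases F.c0 with h | h
    · have nA2 : N2 A (of Ch) := by
        refine hN.left.change F.sC ?_
        rw [om_of_nt F.rC]
        have := F.hc
        linarith
      have qa2 := hA2 Ch F.rC F.pA nA2
      rw [← F.hea] at qa2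
      exact ⟨by linarith [qa2.1], fun hl => by linarith [qa2.2 hl]⟩
    · have hm : (A.nt.J.Om + 1) * 24 ≤ (A.nt.J.Om + 1) * c := mul_le_mul_of_nonneg_left h a0
      exact ⟨by linarith [qa.1], fun hl => by linarith [qa.2 hl]⟩
  have XB : (24 ≤ c' ∨ (c' = 0 ∧ (A.nt.J.Om + 1) * (R.pq.2 : ℚ) ^ 2 = 0)) →
      eb - 1 / 2 * (B.nt.J.Om + 1) * c' ≤ 0 ∧
      (HL B → eb - 1 / 2 * (B.nt.J.Om + 1) * c' < 0) := by
    rintro (h | ⟨h, h2⟩)
    · have hm : (B.nt.J.Om + 1) * 24 ≤ (B.nt.J.Om + 1) * c' := mul_le_mul_of_nonneg_left h b0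
      exact ⟨by linarith [qb.1], fun hl => by linarith [qb.2 hl]⟩
    · have nB2 : N2 B (of Ch') := by
        refine hN.right.change F.sD ?_
        rw [om_of_nt F.rD]
        have h3 := F.hc''
        have h4 := F.ce''
        linarith
      have qb2 := hB2 Ch' F.rD F.pB nB2
      rw [← F.heb] at qb2
      exact ⟨by linarith [qb2.1], fun hl => by linarith [qb2.2 hl]⟩
  by_cases hcase : 24 ≤ c' ∨ (c' = 0 ∧ (A.nt.J.Om + 1) * (R.pq.2 : ℚ) ^ 2 = 0)
  · have XB' := XB hcase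
    refine ⟨by linarith [XA.1, XB'.1], fun hl => ?_⟩
    rcases hl with hl | hl
    · linarith [XA.2 hl, XB'.1]
    · linarith [XA.1, XB'.2 hl]
  · -- `c' = 0`, `w_A > 0`, `q_R ≠ 0`
    rw [not_or, not_and] at hcase
    have h1 : c' = 0 := by
      rcases F.c0' with h | h
      · exact h
      · exact absurd h hcase.1
    have h2 := hcase.2 h1
    have hwA : 24 ≤ A.nt.J.Om + 1 := by
      rcases bA.om with h | h
      · exact absurd (by rw [h, zero_mul]) h2
      · exact h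
    have hqR : R.pq.2 ≠ 0 := by
      intro h
      apply h2
      rw [h]
      norm_num
    have hcB : B.nt.J.Om + 1 ≤ c := by
      have sR := NT.sq_ge hqR
      rw [F.ce]
      by_cases hB0 : B.nt.x.2 = 0
      · have := NT.sq_one (F.qB hB0).2
        rw [this]
        linarith
      · have sB := NT.sq_ge hB0
        have m3 : 0 ≤ ((B.nt.x.2 : ℚ) ^ 2 - 1) * ((R.pq.2 : ℚ) ^ 2 - 1) :=
          mul_nonneg (by linarith) (by linarith)
        nlinarith
    rw [h1] at hle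
    rcases bB.om with hB | hB
    · have hvB : B.vv = 0 := by linarith
      rw [hvB] at qb
      refine ⟨by linarith [XA.1, qb.1], fun hl => ?_⟩
      rcases hl with hl | hl
      · linarith [XA.2 hl, qb.1]
      · linarith [XA.1, qb.2 hl]
    · have hm : (A.nt.J.Om + 1) * (B.nt.J.Om + 1) ≤ (A.nt.J.Om + 1) * c :=
        mul_le_mul_of_nonneg_left hcB a0
      have key : 12 * A.vv + 12 * B.vv ≤ 1 / 2 * (A.nt.J.Om + 1) * (B.nt.J.Om + 1) := by
        rcases bA.v1 with v1 | v1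
        · have : 24 * (B.nt.J.Om + 1) ≤ (A.nt.J.Om + 1) * (B.nt.J.Om + 1) :=
            mul_le_mul_of_nonneg_right hwA b0
          linarith
        · rcases bB.v1 with v2 | v2
          · have : (A.nt.J.Om + 1) * 24 ≤ (A.nt.J.Om + 1) * (B.nt.J.Om + 1) :=
              mul_le_mul_of_nonneg_left hB a0
            linarith
          · have k1 : A.vv * B.vv ≤ (A.nt.J.Om + 1) * (B.nt.J.Om + 1) :=
              mul_le_mul ao bo' bv a0
            nlinarith
      refine ⟨by linarith [qa.1, qb.1], fun hl => ?_⟩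
      rcases hl with hl | hl
      · linarith [qa.2 hl, qb.1]
      · linarith [qa.1, qb.2 hl]

/-- THE NUMERICAL INDUCTION -/
theorem all_q (T : Alt) : Q1 T ∧ Q2 T := by
  induction T with
  | zero =>
      have key : ∀ R : Arb, Rat R → NT.D1 (Alt.zero).nt (NT.of R) →
          ((Alt.zero).nt.sum (NT.of R)).J.E = 0 := by
        intro R hR hD
        exact two_rat' .zero R Rat.zero hR hD
      refine ⟨fun R hR hD _ => ⟨?_, fun hl => hl.elim⟩, fun R hR hD _ => ⟨(key R hR hD).le,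
        fun hl => hl.elim⟩⟩
      rw [key R hR hD]
      show (0 : ℚ) ≤ 12 * 0
      norm_num
  | cross p =>
      have key : ∀ R : Arb, Rat R → NT.D1 (Alt.cross p).nt (NT.of R) →
          ((Alt.cross p).nt.sum (NT.of R)).J.E = 0 := by
        intro R hR hD
        have e : ((Alt.cross p).nt.sum (NT.of R)).J = (Arb.sum (.sum .zero (.cross p)) R).jet := by
          show (Jet.cross p).sum R.jet = (Jet.zero.sum (Jet.cross p)).sum R.jet
          rw [Jet.zero_sum]
        rw [e]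
        refine two_rat' _ R (Pool.Agent.ARB.Rat.add _ p Pool.Agent.ARB.Rat.zero) hR ?_
        rw [← hD]
        show _ = ((Arb.cross p).pq.1 * R.pq.2 + (Arb.cross p).pq.2 * R.pq.1).natAbs
        simp only [Arb.pq]
        congr 1
        ring
      refine ⟨fun R hR hD _ => ⟨?_, fun hl => hl.elim⟩, fun R hR hD _ => ⟨(key R hR hD).le,
        fun hl => hl.elim⟩⟩
      rw [key R hR hD]
      show (0 : ℚ) ≤ 12 * 0
      norm_num
  | leaf L =>
      constructor
      · intro R hR hD _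
        have h2 : (L.J.sum R.jet).p ^ 2 = 1 := by
          have h3 := ((NT.sum (Alt.leaf L).nt (NT.of R)).hp)
          have h4 : (L.J.sum R.jet).p = ((NT.sum (Alt.leaf L).nt (NT.of R)).x.1 : ℚ) := h3
          rw [h4]
          exact NT.sq_one hD
        have h1 : (L.J.sum R.jet).E < 12 * (L.J.Om + 1) := L.E hD.cop.1 R hR h2
        exact ⟨h1.le, fun _ => h1⟩
      · intro R hR hD hO
        exact absurd (om_of_nt hR) (hO L (fun X => X) 1 (Occ.leaf L))
  | sum A B hA hB =>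
      exact ⟨q_sum1 A B hA.1 hA.2 hB.1 hB.2, q_sum2 A B hA.1 hA.2 hB.1 hB.2⟩
  | rot A hA => exact q_rot A hA.1 hA.2

/-- If `|p| = 1` and `E = 0` and there is a leaf then some leaf has a complement with `Om = -1`. -/
theorem exOcc (T : Alt) (hl : HL T) (hp : T.nt.x.1.natAbs = 1) (hE : T.nt.J.E = 0) :
    ∃ (L : Lf) (f : Alt → Alt) (s : ℤ), Occ T L f s ∧ (f .zero).nt.J.Om = -1 ∧
      NT.D1 (Alt.leaf L).nt (f .zero).nt := by
  by_contra hno
  have e0 : T.nt.sum (NT.of .zero) = T.nt := by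
    refine NT.ext' ?_ (Jet.sum_zero _)
    refine Prod.ext ?_ ?_
    · show T.nt.x.1 * (Arb.zero).pq.2 + T.nt.x.2 * (Arb.zero).pq.1 = T.nt.x.1
      simp [Arb.pq]
    · show T.nt.x.2 * (Arb.zero).pq.2 = T.nt.x.2
      simp [Arb.pq]
  have hD : NT.D1 T.nt (NT.of .zero) := by
    unfold NT.D1
    rw [e0]
    exact hp
  have h1 := (all_q T).2 .zero Rat.zero hD (by
    intro L f s ho h2
    exact hno ⟨L, f, s, ho, h2, ho.d1 .zero hD⟩)
  have h2 := h1.2 hl
  rw [e0, hE] at h2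
  exact lt_irrefl _ h2

end Alt

end Pool.Agent.ALT
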